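import Mathlib
import Pool.Agent.H74.HP.PlS

/-!
# Few generators of a Hilbert cube of squares are small at finitely many places

For a vertex M > 0 of a Hilbert cube of squares, a finite set S of w primes and 0 < η ≤ 1 at most
C (w + 1) log((w + 2)/η) of the generators satisfy |b| ≤ M and
|b| ≤ M^(1-η) ∏_{p ∈ S} p^(v_p(b) - v_p(M)) (natural subtraction), C absolute.
-/

namespace Pool.Agent.Results.MP_259062_nt.FewGeneratorsNearAtPlaces

open Finset

theorem result :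
    ∃ C : ℝ, ∀ (d : ℕ) (a : ℤ) (b : Fin d → ℤ), (∀ i, b i ≠ 0) →
      (∀ s : Finset (Fin d), IsSquare (a + ∑ i ∈ s, b i)) →
      ∀ (s₀ : Finset (Fin d)) (S : Finset ℕ) (η : ℝ), (∀ p ∈ S, p.Prime) → 0 < η → η ≤ 1 →
        0 < a + ∑ i ∈ s₀, b i →
        ((univ.filter fun i : Fin d =>
          |b i| ≤ a + ∑ i ∈ s₀, b i ∧
          |(b i : ℝ)| ≤ ((a + ∑ i ∈ s₀, b i : ℤ) : ℝ) ^ (1 - η) *
            ∏ p ∈ S, (p : ℝ) ^ (padicValInt p (b i) -
              padicValInt p (a + ∑ i ∈ s₀, b i))).card : ℝ)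
          ≤ C * ((S.card : ℝ) + 1) * Real.log (((S.card : ℝ) + 2) / η) :=
  Pool.H74.HP.PlS_main

end Pool.Agent.Results.MP_259062_nt.FewGeneratorsNearAtPlaces
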