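import Mathlib
import Pool.Agent.H10.HC.Short

/-!
# Hilbert cubes in the squares have few small generators

For every `η > 0` there are `M₀` and `D` such that, for every Hilbert cube
`a + {∑_{i ∈ s} b_i}` (any dimension, nonzero integer generators of any signs, repetitions
allowed) consisting of squares, and for every element `M` of the cube, at most `D` of the
generators satisfy `|b_i| ≤ M^(1-η)`; if `M ≥ M₀` then at most `1/(2η)` of them do.
-/

namespace Pool.Agent.Results.MP_259062_nt.FewSmallGenerators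

theorem result :
    ∀ η : ℝ, 0 < η → ∃ (M₀ : ℝ) (D : ℕ),
      ∀ (d : ℕ) (a : ℤ) (b : Fin d → ℤ), (∀ i, b i ≠ 0) →
        (∀ s : Finset (Fin d), IsSquare (a + ∑ i ∈ s, b i)) →
        ∀ s₀ : Finset (Fin d),
          (Finset.univ.filter fun i : Fin d =>
            |(b i : ℝ)| ≤ ((a + ∑ i ∈ s₀, b i : ℤ) : ℝ) ^ (1 - η)).card ≤ D ∧
          (M₀ ≤ ((a + ∑ i ∈ s₀, b i : ℤ) : ℝ) →
            ((Finset.univ.filter fun i : Fin d =>
              |(b i : ℝ)| ≤ ((a + ∑ i ∈ s₀, b i : ℤ) : ℝ) ^ (1 - η)).card : ℝ)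
                ≤ 1 / (2 * η)) :=
  fun η hη => Pool.H10.HC.main η hη

end Pool.Agent.Results.MP_259062_nt.FewSmallGenerators
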