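import Mathlib
import Pool.Agent.H74.HL.Fin

/-!
# Hilbert cubes in the squares: dimension at most (2/log 3 + ε) log log N

The dimension of a Hilbert cube of squares in [0, N] is at most κ log log N for every
κ > 2/log 3 and N large (κ > 3/log 7 if the |b_i| are pairwise distinct), and for every element
M ≥ 3 of such a cube at most κ log(1/η) + C generators satisfy |b_i| ≤ e M^(1-η),
1/log M ≤ η ≤ 1.
-/

namespace Pool.Agent.Results.MP_259062_nt.LogLogDimension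

open Finset

theorem result :
    (∀ κ : ℝ, 2 / Real.log 3 < κ →
      ∃ N₀ : ℝ, ∀ N : ℝ, N₀ ≤ N → ∀ (d : ℕ) (a : ℤ) (b : Fin d → ℤ), (∀ i, b i ≠ 0) →
        (∀ s : Finset (Fin d),
          IsSquare (a + ∑ i ∈ s, b i) ∧ ((a + ∑ i ∈ s, b i : ℤ) : ℝ) ≤ N) →
        (d : ℝ) ≤ κ * Real.log (Real.log N)) ∧
    (∀ κ : ℝ, 3 / Real.log 7 < κ →
      ∃ N₀ : ℝ, ∀ N : ℝ, N₀ ≤ N → ∀ (d : ℕ) (a : ℤ) (b : Fin d → ℤ), (∀ i, b i ≠ 0) →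
        Function.Injective (fun i => |b i|) →
        (∀ s : Finset (Fin d),
          IsSquare (a + ∑ i ∈ s, b i) ∧ ((a + ∑ i ∈ s, b i : ℤ) : ℝ) ≤ N) →
        (d : ℝ) ≤ κ * Real.log (Real.log N)) ∧
    (∀ κ : ℝ, 2 / Real.log 3 < κ →
      ∃ C : ℝ, ∀ (d : ℕ) (a : ℤ) (b : Fin d → ℤ), (∀ i, b i ≠ 0) →
        (∀ s : Finset (Fin d), IsSquare (a + ∑ i ∈ s, b i)) →
        ∀ (s₀ : Finset (Fin d)) (η : ℝ), 3 ≤ ((a + ∑ i ∈ s₀, b i : ℤ) : ℝ) →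
          1 / Real.log ((a + ∑ i ∈ s₀, b i : ℤ) : ℝ) ≤ η → η ≤ 1 →
          ((univ.filter fun i : Fin d =>
            |(b i : ℝ)| ≤ Real.exp 1 * ((a + ∑ i ∈ s₀, b i : ℤ) : ℝ) ^ (1 - η)).card : ℝ)
              ≤ κ * Real.log (1 / η) + C) ∧
    (∀ κ : ℝ, 3 / Real.log 7 < κ →
      ∃ C : ℝ, ∀ (d : ℕ) (a : ℤ) (b : Fin d → ℤ), (∀ i, b i ≠ 0) →
        Function.Injective (fun i => |b i|) →
        (∀ s : Finset (Fin d), IsSquare (a + ∑ i ∈ s, b i)) →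
        ∀ (s₀ : Finset (Fin d)) (η : ℝ), 3 ≤ ((a + ∑ i ∈ s₀, b i : ℤ) : ℝ) →
          1 / Real.log ((a + ∑ i ∈ s₀, b i : ℤ) : ℝ) ≤ η → η ≤ 1 →
          ((univ.filter fun i : Fin d =>
            |(b i : ℝ)| ≤ Real.exp 1 * ((a + ∑ i ∈ s₀, b i : ℤ) : ℝ) ^ (1 - η)).card : ℝ)
              ≤ κ * Real.log (1 / η) + C) :=
  ⟨Pool.H74.HL.Fin_total, Pool.H74.HL.Fin_totalDist, Pool.H74.HL.Fin_main,
    Pool.H74.HL.Fin_dist⟩

end Pool.Agent.Results.MP_259062_nt.LogLogDimension
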