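import Pool.Agent.H91.HR.GE

set_option autoImplicit false

/-!
# Hilbert cubes of large dimension in the squares do not vary in families

For every `g` there is `D` such that for every field `K` of characteristic zero and every field `L` which is a finite
extension of degree at most `g` of a field `K(t_1,...,t_k)` of rational functions, every Hilbert cube of dimension
`d ≥ D` with nonzero generators in the squares of `L` is a square times a Hilbert cube of squares of elements of `L`
that are algebraic over `K`.
-/

namespace Pool.Agent.Results.MP_259062_nt.NoFamiliesOfCubes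

universe u

theorem result (g : ℕ) : ∃ D : ℕ, ∀ (K L : Type u) [Field K] [CharZero K] [Field L] [Algebra K L]
    (k : ℕ) (T : Fin k → L), AlgebraicIndependent K T →
    FiniteDimensional (IntermediateField.adjoin K (Set.range T)) L →
    Module.finrank (IntermediateField.adjoin K (Set.range T)) L ≤ g →
    ∀ d : ℕ, D ≤ d → ∀ (a : L) (b : Fin d → L), (∀ i, b i ≠ 0) →
    (∀ V : Finset (Fin d), IsSquare (a + ∑ i ∈ V, b i)) →
    ∃ (h x : L) (y : Fin d → L), h ≠ 0 ∧ a = x * h ^ 2 ∧ (∀ i, b i = y i * h ^ 2) ∧
      IsAlgebraic K x ∧ (∀ i, IsAlgebraic K (y i) ∧ y i ≠ 0) ∧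
      ∀ V : Finset (Fin d), ∃ z : L, IsAlgebraic K z ∧ x + ∑ i ∈ V, y i = z ^ 2 := by
  obtain ⟨D, hD⟩ := Pool.H91.HR.final_thm.{u} g
  exact ⟨D, fun K L _ _ _ _ k T hT hfd hg d hd a b hb hV => hD k T hT hfd hg hd a b hb hV⟩

end Pool.Agent.Results.MP_259062_nt.NoFamiliesOfCubes
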